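import Pool.Agent.Q35.ZC.Stm2
import Pool.Agent.Q26.TT.TBN
import Pool.Agent.Q121.TT.Fs2

/-!
# Project ZC (helper35), job NDS: a split line is not special
-/

set_option autoImplicit false

open Polynomial Pool.Agent.Y720.MZ Pool.Agent.Q35.ZC

namespace Pool.Agent.Q222.ZC

open Pool.Agent.Q35.TT

theorem aeval_pq {K : Type} [Field K] (a : Fin 5 → K) (r : AlgebraicClosure K) :
    aeval r (pq a) = bq (fun k => algebraMap K (AlgebraicClosure K) (a k)) ![1, r] := by
  simp only [pq, Fin.sum_univ_five, bq]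
  simp

theorem aeval_pq' {K : Type} [Field K] (a : Fin 5 → K) (r : AlgebraicClosure K) :
    aeval r (derivative (pq a)) =
      bd (fun k => algebraMap K (AlgebraicClosure K) (a k)) ![1, r] 1 := by
  have h2 : algebraMap K (AlgebraicClosure K) 2 = 2 := map_ofNat _ 2
  have h3 : algebraMap K (AlgebraicClosure K) 3 = 3 := map_ofNat _ 3
  simp only [pq, Fin.sum_univ_five, bd]
  simp
  ring_nf
  rw [h2, h3]
  ring

theorem euler {R : Type} [CommRing R] (a : Fin 5 → R) (s : R) :
    bd a ![1, s] 0 + s * bd a ![1, s] 1 = 4 * bq a ![1, s] := by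
  simp only [bd, bq]
  simp
  ring

theorem core {K : Type} [Field K] [CharZero K] (c : Fin 5 → Fin 5 → K) (hs : Smooth c) (s e : K)
    (g q : K[X]) (he : e ≠ 0) (hg : 0 < g.natDegree)
    (h1 : ∀ t, e * bq (cx c ![1, s]) ![1, t] = g.eval t ^ 2)
    (hq : ∀ t, q.eval t = bq (gd (fun i j => c j i) s) ![1, t]) :
    ¬ pq (cx c ![1, s]) ∣ q ^ 2 := by
  intro hdvd
  have e1 : C e * pq (cx c ![1, s]) = g ^ 2 := by
    refine Polynomial.funext fun t => ?_
    rw [eval_mul, eval_C, Pool.Agent.Q121.TT.pq_eval, h1, eval_pow]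
  obtain ⟨r, hr⟩ := IsAlgClosed.exists_aeval_eq_zero (AlgebraicClosure K) g
    (natDegree_pos_iff_degree_pos.1 hg).ne'
  set φ := algebraMap K (AlgebraicClosure K) with hφ
  have he' : φ e ≠ 0 := by
    rw [Ne, map_eq_zero]
    exact he
  have e2 : aeval r (pq (cx c ![1, s])) = 0 := by
    have := congrArg (aeval r) e1
    rw [map_mul, aeval_C, map_pow, hr] at this
    have h0 : φ e * aeval r (pq (cx c ![1, s])) = 0 := by
      rw [hφ, this]
      ring
    exact (mul_eq_zero.1 h0).resolve_left he'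
  have e3 : aeval r (derivative (pq (cx c ![1, s]))) = 0 := by
    have := congrArg (fun p => aeval r (derivative p)) e1
    simp only [derivative_C_mul, derivative_pow, map_mul, aeval_C, map_pow, hr] at this
    have h0 : φ e * aeval r (derivative (pq (cx c ![1, s]))) = 0 := by
      rw [hφ, this]
      simp
    exact (mul_eq_zero.1 h0).resolve_left he'
  have e4 : aeval r q = 0 := by
    obtain ⟨p, hp⟩ := hdvd
    have := congrArg (aeval r) hp
    rw [map_pow, map_mul, e2, zero_mul] at this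
    exact pow_eq_zero_iff two_ne_zero |>.1 this
  have hq' : q = pq (gd (fun i j => c j i) s) := by
    refine Polynomial.funext fun t => ?_
    rw [hq, Pool.Agent.Q121.TT.pq_eval]
  rw [hq', aeval_pq] at e4
  rw [aeval_pq] at e2
  rw [aeval_pq'] at e3
  have c1 : (fun k => φ (cx c ![1, s] k)) = cx (fun i j => φ (c i j)) ![1, φ s] := by
    funext k
    simp only [cx, bq]
    simp
  rw [← hφ, c1] at e2 e3
  have k1 : bd (cx (fun i j => φ (c i j)) ![1, φ s]) ![1, r] 0 = 0 := by
    have := euler (cx (fun i j => φ (c i j)) ![1, φ s]) r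
    rw [e2, e3] at this
    simpa using this
  have c2 : bq (fun k => φ (gd (fun i j => c j i) s k)) ![1, r] =
      bd (cy (fun i j => φ (c i j)) ![1, r]) ![1, φ s] 1 := by
    have h2 : φ 2 = 2 := map_ofNat _ 2
    have h3 : φ 3 = 3 := map_ofNat _ 3
    have h4 : φ 4 = 4 := map_ofNat _ 4
    simp only [gd, bd, cy, bq]
    simp
    rw [h2, h3, h4]
    ring
  rw [← hφ, c2] at e4
  have c3 : bq (cy (fun i j => φ (c i j)) ![1, r]) ![1, φ s] =
      bq (cx (fun i j => φ (c i j)) ![1, φ s]) ![1, r] := by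
    simp only [cx, cy, bq]
    simp
    ring
  have k2 : bd (cy (fun i j => φ (c i j)) ![1, r]) ![1, φ s] 0 = 0 := by
    have := euler (cy (fun i j => φ (c i j)) ![1, r]) (φ s)
    rw [c3, e2, e4] at this
    simpa using this
  refine hs ![1, r] ![1, φ s] ?_ ?_ ?_ ?_
  · intro h
    exact one_ne_zero (congrFun h 0)
  · intro h
    exact one_ne_zero (congrFun h 0)
  · intro k
    fin_cases k
    · exact k1
    · exact e3
  · intro k
    fin_cases k
    · exact k2
    · exact e4

theorem nds : S_NDS := by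
  intro K _ _ f hf hs i j hij z e g he hg h
  have hsm := Pool.Agent.Q121.TT.smooth hf hs
  left
  have hd : ∀ a b : Fin 2, (MvPolynomial.pderiv a f).degreeOf b ≤ 4 := fun a b =>
    Pool.Agent.Q26.TT.degreeOf_pderiv (hf b) a
  have hcase : (i = 0 ∧ j = 1) ∨ (i = 1 ∧ j = 0) := by
    fin_cases i <;> fin_cases j <;> simp_all
  rcases hcase with ⟨rfl, rfl⟩ | ⟨rfl, rfl⟩
  · rw [Pool.Agent.Q121.TT.lc_zero f hf, Pool.Agent.Q121.TT.lc_zero _ (hd 1)]
    refine core (Pool.Agent.Q121.TT.cf f) hsm (z 1) e g _ he hg ?_ ?_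
    · intro t
      rw [← h t, Pool.Agent.Q121.TT.eval_f' f hf]
      simp
      exact Or.inl rfl
    · intro t
      rw [Pool.Agent.Q121.TT.pq_eval]
      have h1 := Pool.Agent.Q121.TT.eval_f' _ (hd 1) ![t, z 1]
      have h2 := Pool.Agent.Q121.TT.eval_d' f hf ![t, z 1]
      rw [h2] at h1
      exact h1.symm
  · rw [Pool.Agent.Q121.TT.lc_one f hf, Pool.Agent.Q121.TT.lc_one _ (hd 0)]
    refine core (fun i j => Pool.Agent.Q121.TT.cf f j i) (Pool.Agent.Q121.TT.smooth_swap hsm) (z 0) e g _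
      he hg ?_ ?_
    · intro t
      rw [← h t, Pool.Agent.Q121.TT.eval_f f hf]
      simp
      exact Or.inl rfl
    · intro t
      rw [Pool.Agent.Q121.TT.pq_eval]
      have h1 := Pool.Agent.Q121.TT.eval_f _ (hd 0) ![z 0, t]
      have h2 := Pool.Agent.Q121.TT.eval_d f hf ![z 0, t]
      rw [h2] at h1
      exact h1.symm

end Pool.Agent.Q222.ZC
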